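import Mathlib

/-!
# Polynomial identities in three variables by one evaluation (Kronecker substitution)

Polynomials with integer coefficients in three variables are given by lists of monomials
`(c, i, j, k)`, the monomial `c u^i v^j t^k` (repetitions are allowed). A polynomial all of whose
exponents are smaller than `D` and whose coefficients have sum of absolute values smaller than
`2 ^ b` is zero as soon as its value at `u = 2 ^ b`, `v = u ^ D`, `t = u ^ (D * D)` is zero.
`Rep D b p f`: the record `p` (value at that point, bound of the sum of the absolute values of the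
coefficients, bound of the exponents) describes a polynomial whose values at real points are `f`.
-/

set_option autoImplicit false

namespace Pool.Agent.Kron

/-- Monomials `(c, i, j, k)`. -/
abbrev Mon : Type := ℤ × ℕ × ℕ × ℕ

/-- Value at a real point. -/
noncomputable def evR (L : List Mon) (u v t : ℝ) : ℝ :=
  (L.map fun m => (m.1 : ℝ) * (u ^ m.2.1 * v ^ m.2.2.1 * t ^ m.2.2.2)).sum

/-- The index of a monomial. -/
def idx (D : ℕ) (m : Mon) : ℕ := m.2.1 + D * (m.2.2.1 + D * m.2.2.2)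

/-- Value at the point `(2 ^ b, 2 ^ (b D), 2 ^ (b D D))`. -/
def evK (D b : ℕ) : List Mon → ℤ
  | [] => 0
  | m :: L => m.1 * ((2 ^ (b * idx D m) : ℕ) : ℤ) + evK D b L

/-- Sum of the absolute values of the coefficients. -/
def l1 : List Mon → ℕ
  | [] => 0
  | m :: L => m.1.natAbs + l1 L

/-- The exponents in the three variables are at most `d.1`, `d.2.1`, `d.2.2`. -/
def DegLe (d : ℕ × ℕ × ℕ) (L : List Mon) : Prop :=
  ∀ m ∈ L, m.2.1 ≤ d.1 ∧ m.2.2.1 ≤ d.2.1 ∧ m.2.2.2 ≤ d.2.2

@[simp] theorem evR_nil (u v t : ℝ) : evR [] u v t = 0 := by simp [evR]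

@[simp] theorem evR_cons (m : Mon) (L : List Mon) (u v t : ℝ) :
    evR (m :: L) u v t = (m.1 : ℝ) * (u ^ m.2.1 * v ^ m.2.2.1 * t ^ m.2.2.2) + evR L u v t := by
  simp [evR]

theorem evR_append (L M : List Mon) (u v t : ℝ) :
    evR (L ++ M) u v t = evR L u v t + evR M u v t := by
  simp [evR]

theorem evK_append (D b : ℕ) (L M : List Mon) : evK D b (L ++ M) = evK D b L + evK D b M := by
  induction L with
  | nil => simp [evK]
  | cons a L ih => simp only [List.cons_append, evK, ih]; ring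

theorem l1_append (L M : List Mon) : l1 (L ++ M) = l1 L + l1 M := by
  induction L with
  | nil => simp [l1]
  | cons a L ih => simp only [List.cons_append, l1, ih]; omega

/-! ## Products of lists -/

/-- Product of a monomial and a list. -/
def mulM (m : Mon) (L : List Mon) : List Mon :=
  L.map fun m' => (m.1 * m'.1, m.2.1 + m'.2.1, m.2.2.1 + m'.2.2.1, m.2.2.2 + m'.2.2.2)

/-- Product of two lists. -/
def mulL : List Mon → List Mon → List Mon
  | [], _ => []
  | m :: L, M => mulM m M ++ mulL L M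

theorem evR_mulM (m : Mon) (L : List Mon) (u v t : ℝ) :
    evR (mulM m L) u v t = (m.1 : ℝ) * (u ^ m.2.1 * v ^ m.2.2.1 * t ^ m.2.2.2) * evR L u v t := by
  induction L with
  | nil => simp [mulM]
  | cons a L ih =>
    have : mulM m (a :: L) =
        (m.1 * a.1, m.2.1 + a.2.1, m.2.2.1 + a.2.2.1, m.2.2.2 + a.2.2.2) :: mulM m L := rfl
    rw [this, evR_cons, ih, evR_cons]
    push_cast
    ring

theorem evR_mulL (L M : List Mon) (u v t : ℝ) :
    evR (mulL L M) u v t = evR L u v t * evR M u v t := by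
  induction L with
  | nil => simp [mulL]
  | cons a L ih => rw [mulL, evR_append, evR_mulM, ih, evR_cons]; ring

theorem evK_mulM (D b : ℕ) (m : Mon) (L : List Mon) :
    evK D b (mulM m L) = m.1 * ((2 ^ (b * idx D m) : ℕ) : ℤ) * evK D b L := by
  induction L with
  | nil => simp [mulM, evK]
  | cons a L ih =>
    have : mulM m (a :: L) =
        (m.1 * a.1, m.2.1 + a.2.1, m.2.2.1 + a.2.2.1, m.2.2.2 + a.2.2.2) :: mulM m L := rfl
    rw [this, evK, ih, evK]
    have h2 : b * idx D (m.1 * a.1, m.2.1 + a.2.1, m.2.2.1 + a.2.2.1, m.2.2.2 + a.2.2.2) =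
        b * idx D m + b * idx D a := by
      simp only [idx]; ring
    rw [h2, pow_add]
    push_cast
    ring

theorem evK_mulL (D b : ℕ) (L M : List Mon) :
    evK D b (mulL L M) = evK D b L * evK D b M := by
  induction L with
  | nil => simp [mulL, evK]
  | cons a L ih => rw [mulL, evK_append, evK_mulM, ih, evK]; ring

theorem l1_mulM (m : Mon) (L : List Mon) : l1 (mulM m L) = m.1.natAbs * l1 L := by
  induction L with
  | nil => simp [mulM, l1]
  | cons a L ih =>
    have : mulM m (a :: L) =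
        (m.1 * a.1, m.2.1 + a.2.1, m.2.2.1 + a.2.2.1, m.2.2.2 + a.2.2.2) :: mulM m L := rfl
    rw [this, l1, ih, l1, Int.natAbs_mul]
    ring

theorem l1_mulL (L M : List Mon) : l1 (mulL L M) = l1 L * l1 M := by
  induction L with
  | nil => simp [mulL, l1]
  | cons a L ih => rw [mulL, l1_append, l1_mulM, ih, l1]; ring

theorem degLe_append {d : ℕ × ℕ × ℕ} {L M : List Mon} (h1 : DegLe d L) (h2 : DegLe d M) :
    DegLe d (L ++ M) := by
  intro m hm
  rcases List.mem_append.1 hm with h | h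
  · exact h1 m h
  · exact h2 m h

theorem DegLe.mono {d e : ℕ × ℕ × ℕ} {L : List Mon} (h : DegLe d L) (h1 : d.1 ≤ e.1)
    (h2 : d.2.1 ≤ e.2.1) (h3 : d.2.2 ≤ e.2.2) : DegLe e L := by
  intro m hm
  obtain ⟨k1, k2, k3⟩ := h m hm
  exact ⟨k1.trans h1, k2.trans h2, k3.trans h3⟩

/-- Sum of degrees. -/
def dadd (d e : ℕ × ℕ × ℕ) : ℕ × ℕ × ℕ := (d.1 + e.1, d.2.1 + e.2.1, d.2.2 + e.2.2)

/-- Maximum of degrees. -/
def dmax (d e : ℕ × ℕ × ℕ) : ℕ × ℕ × ℕ := (max d.1 e.1, max d.2.1 e.2.1, max d.2.2 e.2.2)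

theorem degLe_append_max {d e : ℕ × ℕ × ℕ} {L M : List Mon} (h1 : DegLe d L) (h2 : DegLe e M) :
    DegLe (dmax d e) (L ++ M) :=
  degLe_append (h1.mono (le_max_left ..) (le_max_left ..) (le_max_left ..))
    (h2.mono (le_max_right ..) (le_max_right ..) (le_max_right ..))

theorem degLe_mulM {d e : ℕ × ℕ × ℕ} {m : Mon} {L : List Mon}
    (h1 : m.2.1 ≤ d.1 ∧ m.2.2.1 ≤ d.2.1 ∧ m.2.2.2 ≤ d.2.2)
    (h2 : DegLe e L) : DegLe (dadd d e) (mulM m L) := by
  intro x hx
  obtain ⟨a, ha, rfl⟩ := List.mem_map.1 hx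
  obtain ⟨ha1, ha2, ha3⟩ := h2 a ha
  exact ⟨Nat.add_le_add h1.1 ha1, Nat.add_le_add h1.2.1 ha2, Nat.add_le_add h1.2.2 ha3⟩

theorem degLe_mulL {d e : ℕ × ℕ × ℕ} {L M : List Mon} (h1 : DegLe d L) (h2 : DegLe e M) :
    DegLe (dadd d e) (mulL L M) := by
  induction L with
  | nil => intro m hm; simp [mulL] at hm
  | cons a L ih =>
    rw [mulL]
    exact degLe_append (degLe_mulM (h1 a (List.mem_cons_self ..)) h2)
      (ih fun m hm => h1 m (List.mem_cons_of_mem _ hm))

/-! ## The main lemma -/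

/-- The digit: sum of the coefficients of index `n`. -/
def dig (D : ℕ) (L : List Mon) (n : ℕ) : ℤ :=
  match L with
  | [] => 0
  | m :: L => (if idx D m = n then m.1 else 0) + dig D L n

theorem abs_dig_le (D : ℕ) (L : List Mon) (n : ℕ) : |dig D L n| ≤ l1 L := by
  induction L with
  | nil => simp [dig, l1]
  | cons a L ih =>
    have h1 : |if idx D a = n then a.1 else 0| ≤ (a.1.natAbs : ℤ) := by
      split
      · rw [Int.abs_eq_natAbs]
      · simp
    calc |dig D (a :: L) n| = |(if idx D a = n then a.1 else 0) + dig D L n| := rfl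
      _ ≤ |if idx D a = n then a.1 else 0| + |dig D L n| := abs_add_le _ _
      _ ≤ (a.1.natAbs : ℤ) + l1 L := add_le_add h1 ih
      _ = (l1 (a :: L) : ℤ) := by simp [l1]

/-- Regrouping a sum over the monomials by the index. -/
theorem sum_regroup {R : Type*} [CommRing R] (D M : ℕ) (W : ℕ → R) (L : List Mon)
    (h : ∀ m ∈ L, idx D m < M) :
    (L.map fun m => (m.1 : R) * W (idx D m)).sum =
      ∑ n ∈ Finset.range M, (dig D L n : R) * W n := by
  induction L with
  | nil => simp [dig]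
  | cons a L ih =>
    have ih' := ih fun m hm => h m (List.mem_cons_of_mem _ hm)
    have ha : idx D a < M := h a (List.mem_cons_self ..)
    rw [List.map_cons, List.sum_cons, ih']
    have : ∀ n ∈ Finset.range M, (dig D (a :: L) n : R) * W n =
        (if idx D a = n then (a.1 : R) * W n else 0) + (dig D L n : R) * W n := by
      intro n _
      rw [dig]
      push_cast
      split <;> ring
    rw [Finset.sum_congr rfl this, Finset.sum_add_distrib, Finset.sum_ite_eq]
    simp [ha]

theorem evK_eq (D b : ℕ) (L : List Mon) :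
    evK D b L = (L.map fun m => (m.1 : ℤ) * ((2 ^ b : ℤ) ^ idx D m)).sum := by
  induction L with
  | nil => simp [evK]
  | cons a L ih =>
    rw [evK, ih, List.map_cons, List.sum_cons]
    push_cast
    rw [pow_mul]

/-- A vanishing sum of powers of `X` with small coefficients has vanishing coefficients. -/
theorem digits_zero (X B : ℤ) (hX : B < X) (M : ℕ) (f : ℕ → ℤ) (hf : ∀ n, |f n| ≤ B)
    (h : ∑ n ∈ Finset.range M, f n * X ^ n = 0) : ∀ n < M, f n = 0 := by
  have hB : 0 ≤ B := (abs_nonneg _).trans (hf 0)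
  have hX0 : X ≠ 0 := by omega
  induction M generalizing f with
  | zero => intro n hn; omega
  | succ M ih =>
    rw [Finset.sum_range_succ'] at h
    have h0 : f 0 = 0 := by
      have hdvd : X ∣ f 0 := by
        have h1 : ∑ n ∈ Finset.range M, f (n + 1) * X ^ (n + 1) =
            X * ∑ n ∈ Finset.range M, f (n + 1) * X ^ n := by
          rw [Finset.mul_sum]
          refine Finset.sum_congr rfl fun n _ => ?_
          ring
        rw [h1] at h
        refine ⟨-∑ n ∈ Finset.range M, f (n + 1) * X ^ n, ?_⟩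
        have : f 0 * X ^ 0 = f 0 := by simp
        rw [this] at h
        linarith
      exact Int.eq_zero_of_abs_lt_dvd hdvd ((hf 0).trans_lt hX)
    intro n hn
    rcases n with _ | n
    · exact h0
    · refine ih (fun k => f (k + 1)) (fun k => hf _) ?_ n (by omega)
      rw [h0] at h
      have h1 : ∑ n ∈ Finset.range M, f (n + 1) * X ^ (n + 1) =
          X * ∑ n ∈ Finset.range M, f (n + 1) * X ^ n := by
        rw [Finset.mul_sum]
        refine Finset.sum_congr rfl fun n _ => ?_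
        ring
      rw [h1] at h
      simp only [pow_zero, mul_one, add_zero] at h
      exact (mul_eq_zero.1 h).resolve_left hX0

theorem idx_lt {D : ℕ} {m : Mon} (h1 : m.2.1 < D) (h2 : m.2.2.1 < D) (h3 : m.2.2.2 < D) :
    idx D m < D * (D * D) := by
  have ha : m.2.2.1 + D * m.2.2.2 < D * D := by
    calc m.2.2.1 + D * m.2.2.2 < D + D * m.2.2.2 := by omega
      _ = D * (m.2.2.2 + 1) := by ring
      _ ≤ D * D := Nat.mul_le_mul_left _ h3
  calc idx D m = m.2.1 + D * (m.2.2.1 + D * m.2.2.2) := rfl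
    _ < D + D * (m.2.2.1 + D * m.2.2.2) := by omega
    _ = D * (m.2.2.1 + D * m.2.2.2 + 1) := by ring
    _ ≤ D * (D * D) := Nat.mul_le_mul_left _ ha

/-- The monomial function is a function of the index. -/
theorem mon_of_idx {D : ℕ} {m : Mon} (h1 : m.2.1 < D) (h2 : m.2.2.1 < D) (u v t : ℝ) :
    u ^ m.2.1 * v ^ m.2.2.1 * t ^ m.2.2.2 =
      u ^ (idx D m % D) * v ^ (idx D m / D % D) * t ^ (idx D m / D / D) := by
  have hD : 0 < D := by omega
  have e1 : idx D m % D = m.2.1 := by
    rw [idx, Nat.add_mul_mod_self_left, Nat.mod_eq_of_lt h1]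
  have e2 : idx D m / D = m.2.2.1 + D * m.2.2.2 := by
    rw [idx, Nat.add_mul_div_left _ _ hD, Nat.div_eq_of_lt h1, zero_add]
  have e3 : (m.2.2.1 + D * m.2.2.2) % D = m.2.2.1 := by
    rw [Nat.add_mul_mod_self_left, Nat.mod_eq_of_lt h2]
  have e4 : (m.2.2.1 + D * m.2.2.2) / D = m.2.2.2 := by
    rw [Nat.add_mul_div_left _ _ hD, Nat.div_eq_of_lt h2, zero_add]
  rw [e1, e2, e3, e4]

/-- **Kronecker substitution.** -/
theorem kron_zero {D b : ℕ} {d : ℕ × ℕ × ℕ} {L : List Mon} (hd1 : d.1 < D) (hd2 : d.2.1 < D)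
    (hd3 : d.2.2 < D) (hdeg : DegLe d L)
    (hB : l1 L < 2 ^ b) (h0 : evK D b L = 0) (u v t : ℝ) : evR L u v t = 0 := by
  have hidx : ∀ m ∈ L, idx D m < D * (D * D) := by
    intro m hm
    obtain ⟨h1, h2, h3⟩ := hdeg m hm
    exact idx_lt (by omega) (by omega) (by omega)
  have h1 := sum_regroup D (D * (D * D)) (fun n => (2 ^ b : ℤ) ^ n) L hidx
  simp only [Int.cast_id] at h1
  rw [evK_eq, h1] at h0
  have hz := digits_zero (2 ^ b : ℤ) (l1 L) (by exact_mod_cast hB) (D * (D * D)) (dig D L)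
    (abs_dig_le D L) h0
  have e : evR L u v t = (L.map fun m => (m.1 : ℝ) *
      (fun n : ℕ => u ^ (n % D) * v ^ (n / D % D) * t ^ (n / D / D)) (idx D m)).sum := by
    rw [evR]
    congr 1
    refine List.map_congr_left fun m hm => ?_
    obtain ⟨h1, h2, h3⟩ := hdeg m hm
    rw [mon_of_idx (D := D) (by omega) (by omega)]
  rw [e, sum_regroup D (D * (D * D))
    (fun n : ℕ => u ^ (n % D) * v ^ (n / D % D) * t ^ (n / D / D)) L hidx]
  refine Finset.sum_eq_zero fun n hn => ?_
  rw [hz n (Finset.mem_range.1 hn)]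
  simp

/-! ## Bounds -/

theorem abs_evR_le (L : List Mon) {u v t : ℝ} (hu : |u| ≤ 1) (hv : |v| ≤ 1) (ht : |t| ≤ 1) :
    |evR L u v t| ≤ l1 L := by
  induction L with
  | nil => simp [l1]
  | cons a L ih =>
    rw [evR_cons, l1]
    refine (abs_add_le _ _).trans ?_
    push_cast
    refine add_le_add ?_ ih
    have h1 : |(a.1 : ℝ) * (u ^ a.2.1 * v ^ a.2.2.1 * t ^ a.2.2.2)| =
        |(a.1 : ℝ)| * (|u| ^ a.2.1 * |v| ^ a.2.2.1 * |t| ^ a.2.2.2) := by
      simp [abs_mul, abs_pow]
    rw [h1]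
    have h2 : |u| ^ a.2.1 * |v| ^ a.2.2.1 * |t| ^ a.2.2.2 ≤ 1 := by
      have e1 := pow_le_one₀ (n := a.2.1) (abs_nonneg u) hu
      have e2 := pow_le_one₀ (n := a.2.2.1) (abs_nonneg v) hv
      have e3 := pow_le_one₀ (n := a.2.2.2) (abs_nonneg t) ht
      have p1 : |u| ^ a.2.1 * |v| ^ a.2.2.1 ≤ 1 := mul_le_one₀ e1 (by positivity) e2
      exact mul_le_one₀ p1 (by positivity) e3
    calc |(a.1 : ℝ)| * (|u| ^ a.2.1 * |v| ^ a.2.2.1 * |t| ^ a.2.2.2) ≤ |(a.1 : ℝ)| * 1 :=
          mul_le_mul_of_nonneg_left h2 (abs_nonneg _)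
      _ = (a.1.natAbs : ℝ) := by rw [mul_one]; simp [Nat.cast_natAbs]

end Pool.Agent.Kron
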