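import Pool.Agent.Kron.Basic

/-!
# Expressions in three variables, their values at the Kronecker point

`Ex`: polynomial expressions in `u`, `v`, `t`; integer constants are written as differences
`p - n` of natural numbers. `Ex.evR`: value at a real point. `Ex.pn D b`: the value at
`u = 2 ^ b`, `v = 2 ^ (b D)`, `t = 2 ^ (b D D)` as a pair (positive part, negative part).
`Ex.one`: the same at `u = v = t = 1`, its sum bounds the sum of the absolute values of the
coefficients. `Ex.dg`: bounds of the degrees in the three variables.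
-/

set_option autoImplicit false

namespace Pool.Agent.Kron

/-- Polynomial expressions. -/
inductive Ex : Type
  | c (p n : ℕ) : Ex
  | u : Ex
  | v : Ex
  | t : Ex
  | add (a b : Ex) : Ex
  | mul (a b : Ex) : Ex
  | neg (a : Ex) : Ex

namespace Ex

/-- The value at a real point. -/
noncomputable def evR : Ex → ℝ → ℝ → ℝ → ℝ
  | c p n, _, _, _ => (p : ℝ) - n
  | .u, x, _, _ => x
  | .v, _, y, _ => y
  | .t, _, _, z => z
  | add a b, x, y, z => evR a x y z + evR b x y z
  | mul a b, x, y, z => evR a x y z * evR b x y z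
  | neg a, x, y, z => -evR a x y z

/-- The value at the Kronecker point, positive and negative part. -/
def pn (D b : ℕ) : Ex → ℕ × ℕ
  | c p n => (p, n)
  | .u => (2 ^ b, 0)
  | .v => (2 ^ (b * D), 0)
  | .t => (2 ^ (b * (D * D)), 0)
  | add e f =>
    match pn D b e, pn D b f with
    | (p, n), (p', n') => (p + p', n + n')
  | mul e f =>
    match pn D b e, pn D b f with
    | (p, n), (p', n') => (p * p' + n * n', p * n' + n * p')
  | neg e =>
    match pn D b e with
    | (p, n) => (n, p)

/-- The value at one, positive and negative part. -/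
def one : Ex → ℕ × ℕ
  | c p n => (p, n)
  | .u => (1, 0)
  | .v => (1, 0)
  | .t => (1, 0)
  | add e f =>
    match one e, one f with
    | (p, n), (p', n') => (p + p', n + n')
  | mul e f =>
    match one e, one f with
    | (p, n), (p', n') => (p * p' + n * n', p * n' + n * p')
  | neg e =>
    match one e with
    | (p, n) => (n, p)

/-- Bounds of the degrees in the three variables. -/
def dg : Ex → ℕ × ℕ × ℕ
  | c _ _ => (0, 0, 0)
  | .u => (1, 0, 0)
  | .v => (0, 1, 0)
  | .t => (0, 0, 1)
  | add e f =>
    match dg e, dg f with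
    | (x, y, z), (x', y', z') => (max x x', max y y', max z z')
  | mul e f =>
    match dg e, dg f with
    | (x, y, z), (x', y', z') => (x + x', y + y', z + z')
  | neg e => dg e

@[simp] theorem evR_c (p n : ℕ) (x y z : ℝ) : evR (c p n) x y z = (p : ℝ) - n := rfl
@[simp] theorem evR_u (x y z : ℝ) : evR Ex.u x y z = x := rfl
@[simp] theorem evR_v (x y z : ℝ) : evR Ex.v x y z = y := rfl
@[simp] theorem evR_t (x y z : ℝ) : evR Ex.t x y z = z := rfl
@[simp] theorem evR_add (a b : Ex) (x y z : ℝ) :
    evR (add a b) x y z = evR a x y z + evR b x y z := rfl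
@[simp] theorem evR_mul (a b : Ex) (x y z : ℝ) :
    evR (mul a b) x y z = evR a x y z * evR b x y z := rfl
@[simp] theorem evR_neg (a : Ex) (x y z : ℝ) : evR (neg a) x y z = -evR a x y z := rfl

/-- An integer constant. -/
def int (z : ℤ) : Ex := c z.toNat (-z).toNat

@[simp] theorem evR_int (k : ℤ) (x y z : ℝ) : evR (int k) x y z = (k : ℝ) := by
  rw [int, evR_c]
  have h : (k.toNat : ℤ) - ((-k).toNat : ℤ) = k := by omega
  calc ((k.toNat : ℕ) : ℝ) - ((-k).toNat : ℕ) = (((k.toNat : ℤ) - ((-k).toNat : ℤ) : ℤ) : ℝ) := by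
        push_cast; rfl
    _ = (k : ℝ) := by rw [h]

/-- The list of monomials of an expression. -/
def toL : Ex → List Mon
  | c p n => [((p : ℤ), 0, 0, 0), (-(n : ℤ), 0, 0, 0)]
  | .u => [(1, 1, 0, 0)]
  | .v => [(1, 0, 1, 0)]
  | .t => [(1, 0, 0, 1)]
  | add a b => toL a ++ toL b
  | mul a b => mulL (toL a) (toL b)
  | neg a => mulM (-1, 0, 0, 0) (toL a)

theorem evR_toL (e : Ex) (x y z : ℝ) : Kron.evR (toL e) x y z = evR e x y z := by
  induction e with
  | c p n => simp [toL]; ring
  | u => simp [toL]
  | v => simp [toL]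
  | t => simp [toL]
  | add a b iha ihb => rw [toL, evR_append, iha, ihb, evR_add]
  | mul a b iha ihb => rw [toL, evR_mulL, iha, ihb, evR_mul]
  | neg a iha => rw [toL, evR_mulM, iha, evR_neg]; simp

theorem evK_toL (D b : ℕ) (e : Ex) : evK D b (toL e) = ((pn D b e).1 : ℤ) - (pn D b e).2 := by
  induction e with
  | c p n => simp [toL, evK, idx, pn]; ring
  | u => simp [toL, evK, idx, pn]
  | v => simp [toL, evK, idx, pn]
  | t => simp [toL, evK, idx, pn]
  | add a b' iha ihb =>
    rw [toL, evK_append, iha, ihb]
    simp only [pn]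
    push_cast
    ring
  | mul a b' iha ihb =>
    rw [toL, evK_mulL, iha, ihb]
    simp only [pn]
    push_cast
    ring
  | neg a iha =>
    rw [toL, evK_mulM, iha]
    simp only [pn, idx]
    push_cast
    simp

theorem l1_toL (e : Ex) : l1 (toL e) ≤ (one e).1 + (one e).2 := by
  induction e with
  | c p n => simp [toL, l1, one]
  | u => simp [toL, l1, one]
  | v => simp [toL, l1, one]
  | t => simp [toL, l1, one]
  | add a b iha ihb =>
    rw [toL, l1_append]
    simp only [one]
    omega
  | mul a b iha ihb =>
    rw [toL, l1_mulL]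
    simp only [one]
    calc l1 (toL a) * l1 (toL b) ≤ ((one a).1 + (one a).2) * ((one b).1 + (one b).2) :=
          Nat.mul_le_mul iha ihb
      _ = _ := by ring
  | neg a iha =>
    rw [toL, l1_mulM]
    simp only [one]
    simp
    omega

theorem degLe_toL (e : Ex) : DegLe (dg e) (toL e) := by
  induction e with
  | c p n => intro m hm; simp [toL] at hm; rcases hm with rfl | rfl <;> simp
  | u => intro m hm; simp [toL] at hm; subst hm; simp [dg]
  | v => intro m hm; simp [toL] at hm; subst hm; simp [dg]
  | t => intro m hm; simp [toL] at hm; subst hm; simp [dg]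
  | add a b iha ihb => exact degLe_append_max iha ihb
  | mul a b iha ihb => exact degLe_mulL iha ihb
  | neg a iha =>
    have h := degLe_mulM (m := ((-1 : ℤ), 0, 0, 0)) (d := (0, 0, 0)) (by simp) iha
    refine h.mono ?_ ?_ ?_ <;> simp [dadd, dg]

end Ex

end Pool.Agent.Kron
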