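import Pool.Agent.Kron.Sos
import Pool.Agent.SDL.AffEx

/-!
# The expressions of the checker as expressions of the three point function

`exOps`: the operations; `Ex.sub`: substitution; `mE`: the multiplier
`M(a; b, c) + M(a; c, b)`; `T0E`, `T1E`, `Q0E`, `Q1E`: the four polynomials of a certificate with
shared multipliers.
-/

set_option autoImplicit false

namespace Pool.Agent.Kron

open Pool.Agent.SDL Pool.Agent.SDC

/-- Operations on expressions. -/
def exOps : EOps Ex where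
  cst z := Ex.c z.toNat (-z).toNat
  ad := Ex.add
  mu := Ex.mul

theorem exOps_isEv (x y z : ℝ) : exOps.IsEv (fun e => Ex.evR e x y z) where
  cst n := Ex.evR_int n x y z
  ad _ _ := rfl
  mu _ _ := rfl

/-- Substitution. -/
def Ex.sub (a b c : Ex) : Ex → Ex
  | .c p n => .c p n
  | .u => a
  | .v => b
  | .t => c
  | .add e f => .add (Ex.sub a b c e) (Ex.sub a b c f)
  | .mul e f => .mul (Ex.sub a b c e) (Ex.sub a b c f)
  | .neg e => .neg (Ex.sub a b c e)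

theorem Ex.evR_sub (a b c : Ex) (e : Ex) (x y z : ℝ) : (Ex.sub a b c e).evR x y z =
    e.evR (a.evR x y z) (b.evR x y z) (c.evR x y z) := by
  induction e with
  | c p n => rfl
  | u => rfl
  | v => rfl
  | t => rfl
  | add e f he hf => simp only [Ex.sub, Ex.evR_add, he, hf]
  | mul e f he hf => simp only [Ex.sub, Ex.evR_mul, he, hf]
  | neg e he => simp only [Ex.sub, Ex.evR_neg, he]

/-- The multiplier as an expression. -/
def mE (M : Ex) (a b c : Ex) : Ex := .add (Ex.sub a b c M) (Ex.sub a c b M)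

/-- The multiplier. -/
noncomputable def mR (M : Ex) (u v t : ℝ) : ℝ := M.evR u v t + M.evR u t v

theorem mR_swap (M : Ex) (u v t : ℝ) : mR M u v t = mR M u t v := add_comm _ _

theorem evR_mE (M a b c : Ex) (x y z : ℝ) : (mE M a b c).evR x y z =
    mR M (a.evR x y z) (b.evR x y z) (c.evR x y z) := by
  simp only [mE, mR, Ex.evR_add, Ex.evR_sub]

/-- `A - B x` as an expression. -/
def linE (A B : ℕ) (x : Ex) : Ex := .add (.c A 0) (.mul (.c 0 B) x)

theorem evR_linE (A B : ℕ) (e : Ex) (x y z : ℝ) : (linE A B e).evR x y z =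
    A - B * e.evR x y z := by
  simp only [linE, Ex.evR_add, Ex.evR_mul, Ex.evR_c, Nat.cast_zero]
  ring

/-- First triple inequality. -/
def T0E (C : Cert) (N : ℕ) (M : Ex) : Ex :=
  .add (C.Z0E exOps N .u .v .t) (.add (.mul (mE M .u .v .t) (linE 1 2 .u))
    (.add (.mul (mE M .v .u .t) (linE 1 2 .v)) (.mul (mE M .t .u .v) (linE 1 2 .t))))

/-- Second triple inequality, times `q`, for `L = p / q`. -/
def T1E (C : Cert) (N : ℕ) (p q : ℕ) (M : Ex) : Ex :=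
  .add (.mul (.c q 0) (C.Z1E exOps N .u .v .t))
    (.add (.mul (mE M .u .v .t) (linE (p + q) (2 * q) .u))
      (.add (.mul (mE M .v .u .t) (linE (p + q) (2 * q) .v))
        (.mul (mE M .t .u .v) (linE q (2 * q) .t))))

/-- First pair inequality. -/
def Q0E (C : Cert) (m : Ex) : Ex :=
  .add (.mul (.c 2 0) (C.P0E exOps .u)) (.mul m (linE 1 2 .u))

/-- Second pair inequality, times `q`, for `L = p / q`. -/
def Q1E (C : Cert) (p q : ℕ) (m : Ex) : Ex :=
  .add (.mul (.c q 0) (C.P1E exOps .u)) (.mul m (linE (p + q) (2 * q) .u))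

theorem evR_T0E (C : Cert) (N : ℕ) (M : Ex) (u v t : ℝ) : (T0E C N M).evR u v t =
    C.Z0 N u v t + mR M u v t * (1 - 2 * u) + mR M v u t * (1 - 2 * v) +
      mR M t u v * (1 - 2 * t) := by
  have h := C.ev_Z0E exOps (exOps_isEv u v t) N .u .v .t
  simp only [Ex.evR_u, Ex.evR_v, Ex.evR_t] at h
  simp only [T0E, Ex.evR_add, Ex.evR_mul, h, evR_mE, evR_linE, Ex.evR_u, Ex.evR_v, Ex.evR_t]
  push_cast
  ring

theorem evR_T1E (C : Cert) (N p q : ℕ) (M : Ex) (u v t : ℝ) (hq : (q : ℝ) ≠ 0) :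
    (T1E C N p q M).evR u v t = q * (C.Z1 N u v t + mR M u v t * (1 + p / q - 2 * u) +
      mR M v u t * (1 + p / q - 2 * v) + mR M t u v * (1 - 2 * t)) := by
  have h := C.ev_Z1E exOps (exOps_isEv u v t) N .u .v .t
  simp only [Ex.evR_u, Ex.evR_v, Ex.evR_t] at h
  simp only [T1E, Ex.evR_add, Ex.evR_mul, Ex.evR_c, h, evR_mE, evR_linE, Ex.evR_u, Ex.evR_v,
    Ex.evR_t]
  push_cast
  field_simp
  ring

theorem evR_Q0E (C : Cert) (m : Ex) (u v t : ℝ) : (Q0E C m).evR u v t =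
    2 * C.P0 u + m.evR u v t * (1 - 2 * u) := by
  have h := C.ev_P0E exOps (exOps_isEv u v t) .u
  simp only [Ex.evR_u] at h
  simp only [Q0E, Ex.evR_add, Ex.evR_mul, Ex.evR_c, h, evR_linE, Ex.evR_u]
  push_cast
  ring

theorem evR_Q1E (C : Cert) (p q : ℕ) (m : Ex) (u v t : ℝ) (hq : (q : ℝ) ≠ 0) :
    (Q1E C p q m).evR u v t = q * (C.P1 u + m.evR u v t * (1 + p / q - 2 * u)) := by
  have h := C.ev_P1E exOps (exOps_isEv u v t) .u
  simp only [Ex.evR_u] at h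
  simp only [Q1E, Ex.evR_add, Ex.evR_mul, Ex.evR_c, h, evR_linE, Ex.evR_u]
  push_cast
  field_simp
  ring

/-- **From the six inequalities to the bound of the total lift.** -/
theorem lift_of {C : Cert} {N p q : ℕ} {M m : Ex} (hp : 0 < p) (hq : 0 < q) (h3 : 3 ≤ N)
    (hok : C.ok N = true)
    (hm1 : ∀ u, -1 ≤ u → u ≤ 1 → 0 < m.evR u 0 0)
    (hQ0 : ∀ u, -1 ≤ u → u ≤ 1 → (Q0E C m).evR u 0 0 < 0)
    (hQ1 : ∀ u, -1 ≤ u → u ≤ 1 → (Q1E C p q m).evR u 0 0 < 0)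
    (hM : ∀ u v t, -1 ≤ u → u ≤ 1 → -1 ≤ v → v ≤ 1 → -1 ≤ t → t ≤ 1 → 0 ≤ gram u v t →
      0 < (mE M .u .v .t).evR u v t)
    (hT0 : ∀ u v t, -1 ≤ u → u ≤ 1 → -1 ≤ v → v ≤ 1 → -1 ≤ t → t ≤ 1 → 0 ≤ gram u v t →
      (T0E C N M).evR u v t < 0)
    (hT1 : ∀ u v t, -1 ≤ u → u ≤ 1 → -1 ≤ v → v ≤ 1 → -1 ≤ t → t ≤ 1 → 0 ≤ gram u v t →
      (T1E C N p q M).evR u v t < 0)
    {ι : Type} [Fintype ι] (n : ι → E3) (h : ι → ℝ) (hN : Fintype.card ι = N)
    (H : Pck n h) : (p : ℝ) / q ≤ ∑ i, (h i - 1) := by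
  have hq' : (0 : ℝ) < q := by exact_mod_cast hq
  have hp' : (0 : ℝ) < p := by exact_mod_cast hp
  refine C.lift_ge_of_mult N (p / q) (div_pos hp' hq') h3 hok (fun u => m.evR u 0 0) (mR M)
    ?_ ?_ ?_ (mR_swap M) ?_ ?_ ?_ n h hN H
  · intro u h1 h2
    exact (hm1 u h1 h2).le
  · intro u h1 h2
    have := hQ0 u h1 h2
    rw [evR_Q0E] at this
    exact this.le
  · intro u h1 h2
    have := hQ1 u h1 h2
    rw [evR_Q1E _ _ _ _ _ _ _ hq'.ne'] at this
    exact (neg_of_mul_neg_right this hq'.le).le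
  · intro u v t h1 h2 h3 h4 h5 h6 h7
    have := hM u v t h1 h2 h3 h4 h5 h6 h7
    rw [evR_mE] at this
    exact this.le
  · intro u v t h1 h2 h3 h4 h5 h6 h7
    have := hT0 u v t h1 h2 h3 h4 h5 h6 h7
    rw [evR_T0E] at this
    exact this
  · intro u v t h1 h2 h3 h4 h5 h6 h7
    have := hT1 u v t h1 h2 h3 h4 h5 h6 h7
    rw [evR_T1E _ _ _ _ _ _ _ _ hq'.ne'] at this
    exact neg_of_mul_neg_right this hq'.le

/-- The constant one. -/
def exOne : Ex := .c 1 0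

/-- The Gram determinant. -/
def exG : Ex := .add (.add (.c 1 0) (.mul (.c 2 0) (.mul .u (.mul .v .t))))
  (.neg (.add (.mul .u .u) (.add (.mul .v .v) (.mul .t .t))))

/-- `1 - x ^ 2`. -/
def exQ (e : Ex) : Ex := .add (.c 1 0) (.neg (.mul e e))

/-- `1 + x`. -/
def exP (e : Ex) : Ex := .add (.c 1 0) e

/-- `1 - x`. -/
def exN (e : Ex) : Ex := .add (.c 1 0) (.neg e)

theorem exOne_nn (x y z : ℝ) : 0 ≤ exOne.evR x y z := by
  simp [exOne]

theorem exG_nn {x y z : ℝ} (h : 0 ≤ gram x y z) : 0 ≤ exG.evR x y z := by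
  refine le_of_le_of_eq h ?_
  simp only [exG, gram, Ex.evR_add, Ex.evR_mul, Ex.evR_neg, Ex.evR_c, Ex.evR_u, Ex.evR_v,
    Ex.evR_t]
  push_cast
  ring

theorem exQ_nn {e : Ex} {x y z : ℝ} (h1 : -1 ≤ e.evR x y z) (h2 : e.evR x y z ≤ 1) :
    0 ≤ (exQ e).evR x y z := by
  simp only [exQ, Ex.evR_add, Ex.evR_mul, Ex.evR_neg, Ex.evR_c]
  push_cast
  nlinarith

theorem exP_nn {e : Ex} {x y z : ℝ} (h1 : -1 ≤ e.evR x y z) : 0 ≤ (exP e).evR x y z := by
  simp only [exP, Ex.evR_add, Ex.evR_c]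
  push_cast
  linarith

theorem exN_nn {e : Ex} {x y z : ℝ} (h2 : e.evR x y z ≤ 1) : 0 ≤ (exN e).evR x y z := by
  simp only [exN, Ex.evR_add, Ex.evR_neg, Ex.evR_c]
  push_cast
  linarith

theorem neg_of_le {K M s : ℕ} {P Q : Ex} {x y z : ℝ} (hK : 0 < K)
    (hP : ∀ x y z, P.evR x y z = M + K * Q.evR x y z) (hs : s < M)
    (h : P.evR x y z ≤ (s : ℕ)) : Q.evR x y z < 0 := by
  rw [hP] at h
  have hK' : (0 : ℝ) < K := by exact_mod_cast hK
  have hs' : (s : ℝ) < M := by exact_mod_cast hs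
  by_contra hc
  rw [not_lt] at hc
  have := mul_nonneg hK'.le hc
  linarith

end Pool.Agent.Kron
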