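import Pool.Agent.Kron.Ex

/-!
# Natural numbers as polynomials with bounded digits

The digits of `A` in base `2 ^ b` are the coefficients of a polynomial. If `A &&& M = A` then
every digit of `A` is at most the digit of `M` at the same place, so `M` bounds the positions and
the sizes of the coefficients.
-/

set_option autoImplicit false

namespace Pool.Agent.Kron

/-- The polynomial with the digits of `A` (`F` digits, the first one has the index `j`). -/
def dec (D b : ℕ) : ℕ → ℕ → ℕ → List Mon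
  | 0, _, _ => []
  | F + 1, j, A =>
    if A % 2 ^ b = 0 then dec D b F (j + 1) (A / 2 ^ b)
    else (((A % 2 ^ b : ℕ) : ℤ), j % D, j / D % D, j / D / D) :: dec D b F (j + 1) (A / 2 ^ b)

/-- The sum of the digits. -/
def dsum (b : ℕ) : ℕ → ℕ → ℕ
  | 0, _ => 0
  | F + 1, A => A % 2 ^ b + dsum b F (A / 2 ^ b)

/-- The positions of the nonzero digits have exponents at most `d`. -/
def posOK (D b : ℕ) (d : ℕ × ℕ × ℕ) : ℕ → ℕ → ℕ → Bool
  | 0, _, A => A == 0
  | F + 1, j, A =>
    (A % 2 ^ b == 0 || (Nat.ble (j % D) d.1 && Nat.ble (j / D % D) d.2.1 &&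
      Nat.ble (j / D / D) d.2.2)) && posOK D b d F (j + 1) (A / 2 ^ b)

theorem idx_dec (D j : ℕ) (a : ℤ) : idx D (a, j % D, j / D % D, j / D / D) = j := by
  simp only [idx]
  rw [Nat.mod_add_div, Nat.mod_add_div]

theorem evK_dec (D b F : ℕ) : ∀ j A : ℕ, A < 2 ^ (b * F) →
    evK D b (dec D b F j A) = ((2 ^ (b * j) * A : ℕ) : ℤ) := by
  induction F with
  | zero =>
    intro j A hA
    have : A = 0 := by simpa using hA
    subst this
    simp [dec, evK]
  | succ F ih =>
    intro j A hA
    have h1 : A / 2 ^ b < 2 ^ (b * F) := by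
      rw [Nat.div_lt_iff_lt_mul (by positivity)]
      calc A < 2 ^ (b * (F + 1)) := hA
        _ = 2 ^ (b * F) * 2 ^ b := by rw [← pow_add]; ring_nf
    have h2 : A = A % 2 ^ b + 2 ^ b * (A / 2 ^ b) := (Nat.mod_add_div A (2 ^ b)).symm
    have h3 : 2 ^ (b * (j + 1)) * (A / 2 ^ b) = 2 ^ (b * j) * (2 ^ b * (A / 2 ^ b)) := by
      rw [mul_add, mul_one, pow_add]; ring
    rw [dec]
    split
    · rename_i h0
      rw [ih _ _ h1, h3]
      congr 2
      omega
    · rw [evK, ih _ _ h1, idx_dec, h3]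
      conv_rhs => rw [h2]
      push_cast
      ring

theorem l1_dec (D b F : ℕ) : ∀ j A : ℕ, l1 (dec D b F j A) ≤ dsum b F A := by
  induction F with
  | zero => intro j A; simp [dec, l1, dsum]
  | succ F ih =>
    intro j A
    rw [dec, dsum]
    have := ih (j + 1) (A / 2 ^ b)
    split
    · omega
    · rw [l1]
      simp only [Int.natAbs_natCast]
      omega

theorem land_parts {A M : ℕ} (b : ℕ) (h : A &&& M = A) :
    A % 2 ^ b ≤ M % 2 ^ b ∧ (A / 2 ^ b) &&& (M / 2 ^ b) = A / 2 ^ b := by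
  constructor
  · calc A % 2 ^ b = (A &&& M) % 2 ^ b := by rw [h]
      _ = A % 2 ^ b &&& M % 2 ^ b := Nat.and_mod_two_pow
      _ ≤ M % 2 ^ b := Nat.and_le_right
  · rw [← Nat.and_div_two_pow, h]

theorem dsum_mono (b F : ℕ) : ∀ A M : ℕ, A &&& M = A → dsum b F A ≤ dsum b F M := by
  induction F with
  | zero => intro A M _; simp [dsum]
  | succ F ih =>
    intro A M h
    obtain ⟨h1, h2⟩ := land_parts b h
    exact Nat.add_le_add h1 (ih _ _ h2)

theorem degLe_dec (D b F : ℕ) (d : ℕ × ℕ × ℕ) : ∀ j A M : ℕ, A &&& M = A →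
    posOK D b d F j M = true → DegLe d (dec D b F j A) := by
  induction F with
  | zero => intro j A M _ _ m hm; simp [dec] at hm
  | succ F ih =>
    intro j A M h hp
    obtain ⟨h1, h2⟩ := land_parts b h
    rw [posOK, Bool.and_eq_true] at hp
    have hr := ih (j + 1) _ _ h2 hp.2
    rw [dec]
    split
    · exact hr
    · rename_i h0
      intro m hm
      rcases List.mem_cons.1 hm with rfl | hm
      · have hM : M % 2 ^ b ≠ 0 := by omega
        have h3 := hp.1
        simp only [Bool.or_eq_true, beq_iff_eq, hM, false_or, Bool.and_eq_true,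
          Nat.ble_eq] at h3
        exact ⟨h3.1.1, h3.1.2, h3.2⟩
      · exact hr m hm

theorem lt_of_posOK (D b F : ℕ) (d : ℕ × ℕ × ℕ) : ∀ j M : ℕ,
    posOK D b d F j M = true → M < 2 ^ (b * F) := by
  induction F with
  | zero =>
    intro j M h
    simp only [posOK, beq_iff_eq] at h
    subst h
    positivity
  | succ F ih =>
    intro j M h
    rw [posOK, Bool.and_eq_true] at h
    have h1 := ih _ _ h.2
    rw [Nat.div_lt_iff_lt_mul (by positivity)] at h1
    calc M < 2 ^ (b * F) * 2 ^ b := h1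
      _ = 2 ^ (b * (F + 1)) := by rw [← pow_add]; ring_nf

/-- **Masked numbers are polynomials.** -/
theorem rep_of_mask {D b F : ℕ} {d : ℕ × ℕ × ℕ} {A M : ℕ} (h : A &&& M = A)
    (hp : posOK D b d F 0 M = true) :
    ∃ L : List Mon, evK D b L = (A : ℤ) ∧ l1 L ≤ dsum b F M ∧ DegLe d L := by
  have hA : A < 2 ^ (b * F) := by
    have h1 := lt_of_posOK D b F d 0 M hp
    have h2 : A ≤ M := by
      calc A = A &&& M := h.symm
        _ ≤ M := Nat.and_le_right
    omega
  refine ⟨dec D b F 0 A, ?_, ?_, ?_⟩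
  · rw [evK_dec D b F 0 A hA]
    simp
  · exact (l1_dec D b F 0 A).trans (dsum_mono b F A M h)
  · exact degLe_dec D b F d 0 A M h hp

end Pool.Agent.Kron
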