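import Pool.Agent.Kron.Mask

/-!
# Sums of squares certificates checked by one evaluation

Main theorem `sos_le`: from `check = true` it follows that `P ≤ eps` at all points of the cube
where all multipliers are nonnegative.
-/

set_option autoImplicit false

namespace Pool.Agent.Kron

/-- Evaluates the number before it is used. -/
def force {α : Type} (n : ℕ) (f : ℕ → α) : α :=
  match n with
  | 0 => f 0
  | k + 1 => f (k + 1)

@[simp] theorem force_eq {α : Type} (n : ℕ) (f : ℕ → α) : force n f = f n := by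
  cases n <;> rfl

/-- `Ex.pn` with forced evaluation. -/
def pf (D b : ℕ) : Ex → ℕ × ℕ
  | .c p n => (p, n)
  | .u => (2 ^ b, 0)
  | .v => (2 ^ (b * D), 0)
  | .t => (2 ^ (b * (D * D)), 0)
  | .add e f =>
    match pf D b e, pf D b f with
    | (p, n), (p', n') => force (p + p') fun x => force (n + n') fun y => (x, y)
  | .mul e f =>
    match pf D b e, pf D b f with
    | (p, n), (p', n') =>
      force (p * p' + n * n') fun x => force (p * n' + n * p') fun y => (x, y)
  | .neg e =>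
    match pf D b e with
    | (p, n) => (n, p)

theorem pf_eq (D b : ℕ) (e : Ex) : pf D b e = e.pn D b := by
  induction e with
  | c p n => rfl
  | u => rfl
  | v => rfl
  | t => rfl
  | add e f he hf => simp [pf, Ex.pn, he, hf]
  | mul e f he hf => simp [pf, Ex.pn, he, hf]
  | neg e he => simp [pf, Ex.pn, he]

/-- `Ex.one` with forced evaluation. -/
def onef : Ex → ℕ × ℕ
  | .c p n => (p, n)
  | .u => (1, 0)
  | .v => (1, 0)
  | .t => (1, 0)
  | .add e f =>
    match onef e, onef f with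
    | (p, n), (p', n') => force (p + p') fun x => force (n + n') fun y => (x, y)
  | .mul e f =>
    match onef e, onef f with
    | (p, n), (p', n') =>
      force (p * p' + n * n') fun x => force (p * n' + n * p') fun y => (x, y)
  | .neg e =>
    match onef e with
    | (p, n) => (n, p)

theorem onef_eq (e : Ex) : onef e = e.one := by
  induction e with
  | c p n => rfl
  | u => rfl
  | v => rfl
  | t => rfl
  | add e f he hf => simp [onef, Ex.one, he, hf]
  | mul e f he hf => simp [onef, Ex.one, he, hf]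
  | neg e he => simp [onef, Ex.one, he]

/-- `Ex.dg` with forced evaluation. -/
def dgf : Ex → ℕ × ℕ × ℕ
  | .c _ _ => (0, 0, 0)
  | .u => (1, 0, 0)
  | .v => (0, 1, 0)
  | .t => (0, 0, 1)
  | .add e f =>
    match dgf e, dgf f with
    | (x, y, z), (x', y', z') =>
      force (max x x') fun a => force (max y y') fun b => force (max z z') fun c => (a, b, c)
  | .mul e f =>
    match dgf e, dgf f with
    | (x, y, z), (x', y', z') =>
      force (x + x') fun a => force (y + y') fun b => force (z + z') fun c => (a, b, c)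
  | .neg e => dgf e

theorem dgf_eq (e : Ex) : dgf e = e.dg := by
  induction e with
  | c p n => rfl
  | u => rfl
  | v => rfl
  | t => rfl
  | add e f he hf => simp [dgf, Ex.dg, he, hf]
  | mul e f he hf => simp [dgf, Ex.dg, he, hf]
  | neg e he => simpa [dgf, Ex.dg] using he

/-- A set of monomials with bounded digits: mask `M`, one at every position `J`, bounds `nM`,
`nJ` of the digit sums, bounds `d` of the exponents, steps `net` of the network which moves the
packed digits to their positions. -/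
structure Basis where
  M : ℕ
  J : ℕ
  nM : ℕ
  nJ : ℕ
  d : ℕ × ℕ × ℕ
  net : List (ℕ × ℕ × ℕ)

/-- The check of a set of monomials. -/
def Basis.ok (D b F : ℕ) (B : Basis) : Bool :=
  posOK D b B.d F 0 B.M && posOK D b B.d F 0 B.J && Nat.ble (dsum b F B.M) B.nM &&
    Nat.ble (dsum b F B.J) B.nJ

/-- Moves the digits to their positions. -/
def spread : List (ℕ × ℕ × ℕ) → ℕ → ℕ
  | [], x => x
  | (k, m, s) :: l, x => force ((x &&& k) ||| ((x &&& m) <<< s)) (spread l)

/-- Sums over the rows: squares, values, number of rows, and whether all rows are masked. -/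
def sq (B : Basis) : List ℕ → ℕ × ℕ × ℕ × Bool
  | [] => (0, 0, 0, true)
  | a :: l =>
    match sq B l with
    | (s, r, k, o) =>
      force (spread B.net a) fun A => force (s + A * A) fun s' => force (r + A) fun r' =>
        (s', r', k + 1, o && Nat.beq (A &&& B.M) A)

theorem mask_rep {D b F : ℕ} {B : Basis} (hB : B.ok D b F = true) {A : ℕ} (h : A &&& B.M = A) :
    ∃ L : List Mon, evK D b L = (A : ℤ) ∧ l1 L ≤ B.nM ∧ DegLe B.d L := by
  simp only [Basis.ok, Bool.and_eq_true, Nat.ble_eq] at hB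
  obtain ⟨L, h1, h2, h3⟩ := rep_of_mask h hB.1.1.1
  exact ⟨L, h1, h2.trans hB.1.2, h3⟩

theorem one_rep {D b F : ℕ} {B : Basis} (hB : B.ok D b F = true) :
    ∃ L : List Mon, evK D b L = (B.J : ℤ) ∧ l1 L ≤ B.nJ ∧ DegLe B.d L := by
  simp only [Basis.ok, Bool.and_eq_true, Nat.ble_eq] at hB
  obtain ⟨L, h1, h2, h3⟩ := rep_of_mask (Nat.and_self B.J) hB.1.1.2
  exact ⟨L, h1, h2.trans hB.2, h3⟩

theorem sq_rep {D b F : ℕ} {B : Basis} (hB : B.ok D b F = true) (O : ℕ) (l : List ℕ) :
    ∀ s r k : ℕ, sq B l = (s, r, k, true) →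
    ∃ L : List Mon, evK D b L = (s : ℤ) + k * (O * B.J) ^ 2 - 2 * (O * B.J) * r ∧
      l1 L ≤ k * (B.nM + O * B.nJ) ^ 2 ∧ DegLe (dadd B.d B.d) L ∧
      ∀ x y z : ℝ, 0 ≤ evR L x y z := by
  induction l with
  | nil =>
    intro s r k h
    simp only [sq, Prod.mk.injEq] at h
    obtain ⟨h1, h2, h3, -⟩ := h
    subst h1 h2 h3
    exact ⟨[], by simp [evK], by simp [l1], by intro m hm; simp at hm, by simp⟩
  | cons a l ih =>
    intro s r k h
    rcases hs : sq B l with ⟨s0, r0, k0, o⟩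
    simp only [sq, hs, force_eq, Prod.mk.injEq, Bool.and_eq_true, Nat.beq_eq] at h
    obtain ⟨h1, h2, h3, ho, hm⟩ := h
    subst ho
    obtain ⟨L, e1, e2, e3, e4⟩ := ih s0 r0 k0 hs
    obtain ⟨LA, a1, a2, a3⟩ := mask_rep hB hm
    obtain ⟨LJ, j1, j2, j3⟩ := one_rep hB
    set A := spread B.net a with hA
    set Q := LA ++ mulM (-(O : ℤ), 0, 0, 0) LJ with hQ
    have q1 : evK D b Q = (A : ℤ) - O * B.J := by
      rw [hQ, evK_append, evK_mulM, a1, j1]
      simp [idx]
      ring
    have q2 : l1 Q ≤ B.nM + O * B.nJ := by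
      rw [hQ, l1_append, l1_mulM]
      refine Nat.add_le_add a2 ?_
      simp only [Int.natAbs_neg, Int.natAbs_natCast]
      exact Nat.mul_le_mul_left _ j2
    have q3 : DegLe B.d Q := by
      refine degLe_append a3 ?_
      have h := degLe_mulM (m := (-(O : ℤ), 0, 0, 0)) (d := (0, 0, 0)) (by simp) j3
      refine h.mono ?_ ?_ ?_ <;> simp [dadd]
    refine ⟨L ++ mulL Q Q, ?_, ?_, ?_, ?_⟩
    · rw [evK_append, evK_mulL, e1, q1, ← h1, ← h2, ← h3]
      push_cast
      ring
    · rw [l1_append, l1_mulL, ← h3]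
      calc l1 L + l1 Q * l1 Q ≤ k0 * (B.nM + O * B.nJ) ^ 2 +
            (B.nM + O * B.nJ) * (B.nM + O * B.nJ) := Nat.add_le_add e2 (Nat.mul_le_mul q2 q2)
        _ = (k0 + 1) * (B.nM + O * B.nJ) ^ 2 := by ring
    · exact degLe_append e3 (degLe_mulL q3 q3)
    · intro x y z
      rw [evR_append, evR_mulL]
      exact add_nonneg (e4 x y z) (mul_self_nonneg _)

/-- A block of a certificate: multiplier, set of monomials, offset of the digits, rows. -/
structure Blk where
  g : Ex
  B : Basis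
  O : ℕ
  rows : List ℕ

/-- Value of a block at the Kronecker point (positive part, negative part), bound of the
coefficients, whether the rows and the degrees are right. -/
def Blk.val (D b : ℕ) (K : Blk) : ℕ × ℕ × ℕ × Bool :=
  match sq K.B K.rows, pf D b K.g, onef K.g, dgf K.g with
  | (s, r, k, o), (p, n), (p1, n1), (x, y, z) =>
    force (K.O * K.B.J) fun w => force (s + k * w ^ 2) fun P => force (2 * w * r) fun N =>
      force (p * P + n * N) fun X => force (p * N + n * P) fun Y =>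
        force ((p1 + n1) * (k * (K.B.nM + K.O * K.B.nJ) ^ 2)) fun W =>
          (X, Y, W, o && (Nat.blt (x + (K.B.d.1 + K.B.d.1)) D &&
            (Nat.blt (y + (K.B.d.2.1 + K.B.d.2.1)) D &&
              Nat.blt (z + (K.B.d.2.2 + K.B.d.2.2)) D)))

theorem blk_rep {D b F : ℕ} {K : Blk} (hB : K.B.ok D b F = true) {X Y W : ℕ}
    (h : K.val D b = (X, Y, W, true)) :
    ∃ L : List Mon, evK D b L = (X : ℤ) - Y ∧ l1 L ≤ W ∧
      DegLe (D - 1, D - 1, D - 1) L ∧
      ∀ x y z : ℝ, 0 ≤ K.g.evR x y z → 0 ≤ evR L x y z := by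
  rcases hs : sq K.B K.rows with ⟨s, r, k, o⟩
  rcases hp : pf D b K.g with ⟨p, n⟩
  rcases h1 : onef K.g with ⟨p1, n1⟩
  rcases hd : dgf K.g with ⟨x, y, z⟩
  simp only [Blk.val, hs, hp, h1, hd, force_eq, Prod.mk.injEq, Bool.and_eq_true] at h
  obtain ⟨hX, hY, hW, ho, hx, hy, hz⟩ := h
  subst ho
  obtain ⟨L, e1, e2, e3, e4⟩ := sq_rep hB K.O K.rows s r k hs
  rw [pf_eq] at hp
  rw [onef_eq] at h1
  rw [dgf_eq] at hd
  have hg1 := Ex.evK_toL D b K.g
  have hg2 := Ex.l1_toL K.g
  have hg3 := Ex.degLe_toL K.g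
  rw [hp] at hg1
  rw [h1] at hg2
  rw [hd] at hg3
  refine ⟨mulL K.g.toL L, ?_, ?_, ?_, ?_⟩
  · rw [evK_mulL, hg1, e1, ← hX, ← hY]
    push_cast
    ring
  · rw [l1_mulL, ← hW]
    exact Nat.mul_le_mul hg2 e2
  · have h2 := degLe_mulL hg3 e3
    have hx' := Eq.mp Nat.blt_eq hx
    have hy' := Eq.mp Nat.blt_eq hy
    have hz' := Eq.mp Nat.blt_eq hz
    refine h2.mono ?_ ?_ ?_ <;> simp only [dadd] <;> omega
  · intro x y z hg
    rw [evR_mulL, Ex.evR_toL]
    exact mul_nonneg hg (e4 x y z)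

/-- Sum over the blocks. -/
def blkSum (D b : ℕ) : List Blk → ℕ × ℕ × ℕ × Bool
  | [] => (0, 0, 0, true)
  | K :: l =>
    match K.val D b, blkSum D b l with
    | (X, Y, W, o), (X', Y', W', o') =>
      force (X + X') fun A => force (Y + Y') fun B => force (W + W') fun C => (A, B, C, o && o')

theorem blkSum_rep {D b F : ℕ} (l : List Blk) : (∀ K ∈ l, K.B.ok D b F = true) →
    ∀ X Y W : ℕ, blkSum D b l = (X, Y, W, true) →
    ∃ L : List Mon, evK D b L = (X : ℤ) - Y ∧ l1 L ≤ W ∧
      DegLe (D - 1, D - 1, D - 1) L ∧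
      ∀ x y z : ℝ, (∀ K ∈ l, 0 ≤ K.g.evR x y z) → 0 ≤ evR L x y z := by
  induction l with
  | nil =>
    intro _ X Y W h
    simp only [blkSum, Prod.mk.injEq] at h
    obtain ⟨h1, h2, h3, -⟩ := h
    subst h1 h2 h3
    exact ⟨[], by simp [evK], by simp [l1], by intro m hm; simp at hm, by simp⟩
  | cons K l ih =>
    intro hl X Y W h
    rcases hv : K.val D b with ⟨X1, Y1, W1, o1⟩
    rcases hs : blkSum D b l with ⟨X2, Y2, W2, o2⟩
    simp only [blkSum, hv, hs, force_eq, Prod.mk.injEq, Bool.and_eq_true] at h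
    obtain ⟨hX, hY, hW, ho1, ho2⟩ := h
    subst ho1 ho2
    obtain ⟨L1, a1, a2, a3, a4⟩ := blk_rep (hl K (List.mem_cons_self ..)) hv
    obtain ⟨L2, b1, b2, b3, b4⟩ := ih (fun K hK => hl K (List.mem_cons_of_mem _ hK)) X2 Y2 W2 hs
    refine ⟨L1 ++ L2, ?_, ?_, degLe_append a3 b3, ?_⟩
    · rw [evK_append, a1, b1, ← hX, ← hY]
      push_cast
      ring
    · rw [l1_append, ← hW]
      exact Nat.add_le_add a2 b2
    · intro x y z hg
      rw [evR_append]
      exact add_nonneg (a4 x y z (hg K (List.mem_cons_self ..)))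
        (b4 x y z fun K hK => hg K (List.mem_cons_of_mem _ hK))

/-- The check of a certificate for `P ≤ eps`: the residual `P + sum g sigma` has the digits
`r + O` with `0 ≤ r + O < 2 ^ w`. -/
def check (D b : ℕ) (P : Ex) (l : List Blk) (R : Basis) (O : ℕ) : Bool :=
  match pf D b P, onef P, dgf P, blkSum D b l with
  | (p, n), (p1, n1), (x, y, z), (X, Y, W, o) =>
    force (p + X + O * R.J) fun A => force (n + Y) fun B => force (A - B) fun V =>
      o && (Nat.ble B A && (Nat.beq (V &&& R.M) V && (Nat.blt x D && (Nat.blt y D &&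
        (Nat.blt z D && (Nat.blt R.d.1 D && (Nat.blt R.d.2.1 D && (Nat.blt R.d.2.2 D &&
          Nat.blt (p1 + n1 + W + (R.nM + O * R.nJ)) (2 ^ b)))))))))

/-- **Sums of squares certificates.** -/
theorem sos_le {D b F : ℕ} {P : Ex} {l : List Blk} {R : Basis} {O : ℕ}
    (hl : ∀ K ∈ l, K.B.ok D b F = true) (hR : R.ok D b F = true)
    (h : check D b P l R O = true) {x y z : ℝ} (hx : |x| ≤ 1) (hy : |y| ≤ 1) (hz : |z| ≤ 1)
    (hg : ∀ K ∈ l, 0 ≤ K.g.evR x y z) : P.evR x y z ≤ (R.nM + O * R.nJ : ℕ) := by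
  rcases hp : pf D b P with ⟨p, n⟩
  rcases h1 : onef P with ⟨p1, n1⟩
  rcases hd : dgf P with ⟨dx, dy, dz⟩
  rcases hs : blkSum D b l with ⟨X, Y, W, o⟩
  simp only [check, hp, h1, hd, hs, force_eq, Bool.and_eq_true, Nat.beq_eq, Nat.ble_eq] at h
  obtain ⟨ho, hBA, hV, hdx, hdy, hdz, r1, r2, r3, hlt⟩ := h
  have hdx' := Eq.mp Nat.blt_eq hdx
  have hdy' := Eq.mp Nat.blt_eq hdy
  have hdz' := Eq.mp Nat.blt_eq hdz
  have hr1' := Eq.mp Nat.blt_eq r1
  have hr2' := Eq.mp Nat.blt_eq r2
  have hr3' := Eq.mp Nat.blt_eq r3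
  have hlt' := Eq.mp Nat.blt_eq hlt
  subst ho
  obtain ⟨LS, s1, s2, s3, s4⟩ := blkSum_rep l hl X Y W hs
  obtain ⟨LV, v1, v2, v3⟩ := mask_rep hR hV
  obtain ⟨LJ, j1, j2, j3⟩ := one_rep hR
  rw [pf_eq] at hp
  rw [onef_eq] at h1
  rw [dgf_eq] at hd
  have hg1 := Ex.evK_toL D b P
  have hg2 := Ex.l1_toL P
  have hg3 := Ex.degLe_toL P
  rw [hp] at hg1
  rw [h1] at hg2
  rw [hd] at hg3
  -- the polynomial that has to vanish
  set Z := (P.toL ++ LS) ++ (mulM ((O : ℤ), 0, 0, 0) LJ ++ mulM (-1, 0, 0, 0) LV) with hZ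
  have z1 : evK D b Z = 0 := by
    rw [hZ, evK_append, evK_append, evK_append, evK_mulM, evK_mulM, hg1, s1, j1, v1]
    push_cast [Nat.cast_sub hBA]
    simp [idx]
    ring
  have z2 : l1 Z < 2 ^ b := by
    rw [hZ, l1_append, l1_append, l1_append, l1_mulM, l1_mulM]
    have e1 : ((O : ℤ), (0 : ℕ), (0 : ℕ), (0 : ℕ)).1.natAbs * l1 LJ ≤ O * R.nJ := by
      simp only [Int.natAbs_natCast]
      exact Nat.mul_le_mul_left _ j2
    have e2 : ((-1 : ℤ), (0 : ℕ), (0 : ℕ), (0 : ℕ)).1.natAbs * l1 LV ≤ R.nM := by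
      simpa using v2
    simp only at hg2
    omega
  have z3 : DegLe (D - 1, D - 1, D - 1) Z := by
    have e1 : DegLe (D - 1, D - 1, D - 1) (mulM ((O : ℤ), 0, 0, 0) LJ) := by
      have h := degLe_mulM (m := ((O : ℤ), 0, 0, 0)) (d := (0, 0, 0)) (by simp) j3
      refine h.mono ?_ ?_ ?_ <;> simp only [dadd] <;> omega
    have e2 : DegLe (D - 1, D - 1, D - 1) (mulM (-1, 0, 0, 0) LV) := by
      have h := degLe_mulM (m := ((-1 : ℤ), 0, 0, 0)) (d := (0, 0, 0)) (by simp) v3
      refine h.mono ?_ ?_ ?_ <;> simp only [dadd] <;> omega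
    refine degLe_append (degLe_append (hg3.mono ?_ ?_ ?_) s3) (degLe_append e1 e2) <;>
      simp only <;> omega
  have hD : 0 < D := by omega
  have hzero := kron_zero (D := D) (b := b) (d := (D - 1, D - 1, D - 1)) (L := Z)
    (by simp only; omega) (by simp only; omega) (by simp only; omega) z3 z2 z1 x y z
  rw [hZ, evR_append, evR_append, evR_append, evR_mulM, evR_mulM, Ex.evR_toL] at hzero
  have p1' := s4 x y z hg
  have b1 := abs_evR_le LV hx hy hz
  have b2 := abs_evR_le LJ hx hy hz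
  have b1' : evR LV x y z ≤ R.nM := (le_abs_self _).trans (b1.trans (by exact_mod_cast v2))
  have b2' : -evR LJ x y z ≤ R.nJ := (neg_le_abs _).trans (b2.trans (by exact_mod_cast j2))
  simp only [pow_zero, mul_one, Int.cast_natCast, Int.cast_neg, Int.cast_one] at hzero
  have b3 : (O : ℝ) * (-evR LJ x y z) ≤ O * R.nJ := mul_le_mul_of_nonneg_left b2' (by positivity)
  push_cast
  linarith

end Pool.Agent.Kron
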